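import Pool.Agent.L7h96.QL.Fin
import Pool.Agent.L7h96.QL.Conv
import Pool.Agent.L7h78.QL.Two
import Pool.Agent.L7h21.QL.Clo
import Pool.Agent.L7h21.QL.Tr
import Pool.Agent.L7h21.QL.Dens

/-!
# Quenched and annealed scaling limits of random walks on random quadrangulations

Let simple random walks on random quadrangulations of the sphere, started from a uniform dart, be
rescaled in space, mass and time in any way such that the edge lengths tend to zero, and suppose
that they converge in law in the Gromov-Hausdorff-Prokhorov-uniform topology to a random space
with a curve (annealed convergence). Then the laws of the walks GIVEN the map and the starting
vertex converge to the law of the limit given the space and the starting point (quenched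
convergence) if and only if the limit is Markov: at every time the future and the past of the
curve are conditionally independent given the space and the present position.

Liouville Brownian motion on the Brownian map is Markov given the surface. Hence the annealed
scaling limit asked for in Q1 would imply the quenched one.

Proof. Two independent walks from the same uniform starting vertex are the two halves of one walk
of double length seen from its middle, by reversibility. Hence the second moments of the quenched
expectations are annealed expectations, of the product of a function of the curve after time `T`
and a function of the curve before time `T`, and they converge. If the limit is Markov then the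
limit is the second moment of the conditional expectation `m` of the limit. Now `m` is
approximated in mean square by continuous functions of the space and the starting point, and the
mean square distance of the quenched expectation from such a function converges to the mean square
distance of `m` from it. Conversely, quenched convergence identifies the limit of the second
moments, and this is the conditional independence.

The lemmas are due to helper78 (Markov property and the two halves of a walk), helper21
(`MMC` is pseudo-metrizable, density of continuous functions, closeness of shifted and reversed
paths), helper83 (independently the same theorem) and the reversibility library to helper97.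
-/

set_option autoImplicit false

open scoped NNReal ENNReal Topology
open MeasureTheory ProbabilityTheory Filter Set

open Pool.Agent.Helper363_LBM Pool.Agent.L7h97.TS Pool.Agent.L7h96.QL

namespace Pool.Agent.Results.MP_7a6434d8_pr.QuenchedLimits

/-- **Quenched convergence is equivalent to the Markov property of the annealed limit.** Let `Q k`
be random quadrangulations of the sphere with `N k` faces (of any laws) and `e k` simple random
walks on them, started from a uniform dart. Suppose that, with edges of length `a k → 0`, mass
`b k` at every vertex and time rescaled by `t k`, they converge in law in the GHPU topology to a
random element `Z = (X, d, μ, η)`. Then the following are equivalent: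

* for all bounded continuous functions `F i` the conditional expectations of `F i (W k)` given the
  map and the starting vertex, `W k` being the rescaled walk, converge in law, jointly with `W k`,
  to the conditional expectations of `F i Z` given the space and the starting point `η 0`;
* for every `T`, given the space and `η T` the curves `η (T + ·)` and `η (T - ·)` are conditionally
  independent. -/
theorem result {Ωs : ℕ → Type} [∀ k, MeasurableSpace (Ωs k)] (Ps : ∀ k, Measure (Ωs k))
    [∀ k, IsProbabilityMeasure (Ps k)] (N : ℕ → ℕ) (Q : ∀ k, Ωs k → Quad (N k))
    (e : ∀ k, Ωs k → ℕ → Fin (4 * N k)) (hS : ∀ k, IsSRW (Ps k) (Q k) (e k))
    (hU : ∀ k, UniformStart (Ps k) (Q k) (e k))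
    (a b t : ℕ → ℝ≥0) (ha : Tendsto a atTop (𝓝 0))
    {Ω : Type} [MeasurableSpace Ω] (P : Measure Ω) [IsProbabilityMeasure P] (Z : Ω → MMC)
    (hZ : @Measurable Ω MMC _ (borel MMC) Z)
    (hconv : ConvergesInLaw Ps
      (fun k ω => walkSpace (Q k ω) (a k) (b k) (t k) (e k ω) ((hS k).path ω)) P Z) :
    QuenchedLimit Ps N Q e
      (fun k ω => walkSpace (Q k ω) (a k) (b k) (t k) (e k ω) ((hS k).path ω)) P Z ↔
      IsMarkov P Z :=
  ⟨fun h => markov_of_quenched (hS := hS) Pool.Agent.L7h78.QL.s_TWO Pool.Agent.L7h21.QL.s_CLO
      Pool.Agent.L7h21.QL.s_TR Pool.Agent.L7h21.QL.s_DENS hU ha hZ hconv h,
    fun h => quenched_of_markov (hS := hS) Pool.Agent.L7h78.QL.s_TWO Pool.Agent.L7h21.QL.s_CLO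
      Pool.Agent.L7h21.QL.s_TR Pool.Agent.L7h21.QL.s_DENS hU ha hZ hconv h⟩

end Pool.Agent.Results.MP_7a6434d8_pr.QuenchedLimits
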