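import Pool.Agent.L7h97.RV.Lim
import Pool.Agent.L7h97.RV.Glue

/-!
# All limits of the rescaled walks are stationary and reversible for the area measure

Let simple random walks on random quadrangulations of the sphere, started from a uniform dart, be
rescaled in space, mass and time in any way such that the edge lengths tend to zero and the total
mass converges. Whatever the limit in law in the Gromov-Hausdorff-Prokhorov-uniform topology is,
its curve is stationary and reversible, and given the space its position at any time is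
distributed according to the (normalized) area measure.

Proof. The walk is reversible with respect to the degrees. That the degree-biased measure can be
replaced by the counting measure of the vertices is not true for general planar maps, and it is
here a deterministic fact on quadrangulations: for a function `g` on the vertices with
`|g| ≤ C` which changes by at most `ε` along the edges,
`|∑ v, (deg v - 4) * g v| ≤ 20 * N * ε + 8 * C`. It follows with the coarea formula from an upper
bound, for sets `S` of vertices, of `∑ v ∈ S, (deg v - 4)` by the number of darts on the boundary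
of `S`, which is Euler's inequality.
-/

set_option autoImplicit false

open scoped NNReal ENNReal Topology
open MeasureTheory ProbabilityTheory Filter Set

open Pool.Agent.Helper363_LBM Pool.Agent.L7h97.TS Pool.Agent.L7h97.RV

namespace Pool.Agent.Results.MP_7a6434d8_pr.ReversibleLimits

/-- The space `(X, d, μ)` with the curve `u ↦ η (s + u)`. -/
def shift (s : ℝ≥0) (Z : MMC) : MMC :=
  ⟨Z.X, Z.μ, Z.fin, fun u => Z.η (s + u), Z.cont.comp (by fun_prop)⟩

/-- The space `(X, d, μ)` with the curve stopped at time `T`, which is `u ↦ η (min u T)`. -/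
def stop (T : ℝ≥0) (Z : MMC) : MMC :=
  ⟨Z.X, Z.μ, Z.fin, fun u => Z.η (min u T), Z.cont.comp (by fun_prop)⟩

/-- The space `(X, d, μ)` with the curve on `[0, T]` run backwards, which is `u ↦ η (T - u)` for
`u ≤ T` and stays at `η 0` afterwards. -/
def reverse (T : ℝ≥0) (Z : MMC) : MMC :=
  ⟨Z.X, Z.μ, Z.fin, fun u => Z.η (T - u), Z.cont.comp (by fun_prop)⟩

/-- The space `(X, d, μ)` with the point `x`, that is, with the constant curve at `x`. -/
def point (Z : MMC) (x : Z.X) : MMC := ⟨Z.X, Z.μ, Z.fin, fun _ => x, continuous_const⟩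

/-- The integral of `F (X, d, μ, x)` over `x` with respect to `μ`. -/
noncomputable def average (F : MMC → ℝ) (Z : MMC) : ℝ :=
  letI : MeasurableSpace Z.X := borel Z.X
  ∫ x, F (point Z x) ∂Z.μ

theorem cont_rep (g : ℝ≥0 → ℝ≥0) (hg : Continuous g) : Continuous (rep g hg) := by
  rw [continuous_def]
  intro U hU Z hZ
  obtain ⟨ε, hε, h⟩ := hU (rep g hg Z) hZ
  obtain ⟨δ, hδ, h2⟩ := exists_close_rep g hg hε
  exact ⟨δ, hδ, fun Z' hZ' => h _ (h2 Z Z' hZ')⟩

section Limit

variable {Ω : Type} [MeasurableSpace Ω] {P : Measure Ω} [IsProbabilityMeasure P] {Z : Ω → MMC}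

omit [IsProbabilityMeasure P] in
theorem meas_comp (hZ : @Measurable Ω MMC _ (borel MMC) Z) {F : MMC → ℝ} (hF : Continuous F) :
    Measurable (fun ω => F (Z ω)) := by
  have h1 : @Measurable MMC ℝ (borel MMC) _ F := by
    let _ : MeasurableSpace MMC := borel MMC
    have : BorelSpace MMC := ⟨rfl⟩
    exact hF.measurable
  exact h1.comp hZ

/-- Bounded uniformly continuous functions are enough. -/
theorem law_eq (hZ : @Measurable Ω MMC _ (borel MMC) Z) {G1 G2 : MMC → MMC} (h1 : Continuous G1)
    (h2 : Continuous G2)
    (h : ∀ F : MMC → ℝ, Nice F → ∫ ω, F (G1 (Z ω)) ∂P = ∫ ω, F (G2 (Z ω)) ∂P)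
    {F : MMC → ℝ} (hF : Continuous F) (hb : ∃ C, ∀ z, |F z| ≤ C) :
    ∫ ω, F (G1 (Z ω)) ∂P = ∫ ω, F (G2 (Z ω)) ∂P := by
  obtain ⟨C, hC⟩ := hb
  obtain ⟨G, g1, g2, g3⟩ := approx hF hC
  have k : ∀ {H : MMC → MMC}, Continuous H →
      Tendsto (fun n => ∫ ω, G n (H (Z ω)) ∂P) atTop (𝓝 (∫ ω, F (H (Z ω)) ∂P)) := by
    intro H hH
    apply tendsto_integral_of_dominated_convergence (fun _ => C)
    · intro n
      exact (meas_comp hZ ((g1 n).continuous.comp hH)).aestronglyMeasurable
    · exact integrable_const C
    · intro n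
      exact ae_of_all _ fun ω => by
        rw [Real.norm_eq_abs]
        exact g2 n _
    · exact ae_of_all _ fun ω => g3 _
  have k1 := k h1
  have k2 := k h2
  simp only [h _ (g1 _)] at k1
  exact tendsto_nhds_unique k1 k2

theorem point_eq (Z : MMC) (x : Z.X) : point Z x = at_ Z x := rfl

theorem avg_tendsto {F : MMC → ℝ} {C : ℝ} {G : ℕ → MMC → ℝ}
    (g1 : ∀ n, Nice (G n)) (g2 : ∀ n Z, |G n Z| ≤ C)
    (g3 : ∀ Z, Tendsto (fun n => G n Z) atTop (𝓝 (F Z))) (Z : MMC) :
    Tendsto (fun n => avg (G n) Z) atTop (𝓝 (average F Z)) := by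
  unfold avg average
  let _ : MeasurableSpace Z.X := borel Z.X
  have _ : BorelSpace Z.X := ⟨rfl⟩
  have _ : IsFiniteMeasure Z.μ := ⟨Z.fin⟩
  apply tendsto_integral_of_dominated_convergence (fun _ => C)
  · intro n
    exact (continuous_at (g1 n) Z).aestronglyMeasurable
  · exact integrable_const C
  · intro n
    exact ae_of_all _ fun x => by
      rw [Real.norm_eq_abs]
      exact g2 n _
  · exact ae_of_all _ fun x => g3 _

end Limit

/-- Let `Q k` be random quadrangulations of the sphere with `N k` faces (of any laws) and `e k`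
simple random walks on them, started from a uniform dart. Suppose that, with edges of length
`a k → 0`, mass `b k` at every vertex where `b k * N k → M`, and time rescaled by arbitrary
factors `t k`, they converge in law in the GHPU topology to a random element
`Z = (X, d, μ, η)`. Then almost surely `μ X = M`; the curve is stationary: `(X, d, μ, η (s + ·))`
has the law of `(X, d, μ, η)`; it is reversible: `(X, d, μ, η (T - ·))` has on `[0, T]` the law of
`(X, d, μ, η)`; and `(X, d, μ, η s)` has the law of `(X, d, μ, x)` where, given the space, `x` has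
the law `μ / M`. -/
theorem result {Ωs : ℕ → Type} [∀ k, MeasurableSpace (Ωs k)] (Ps : ∀ k, Measure (Ωs k))
    [∀ k, IsProbabilityMeasure (Ps k)] (N : ℕ → ℕ) (Q : ∀ k, Ωs k → Quad (N k))
    (e : ∀ k, Ωs k → ℕ → Fin (4 * N k)) (hS : ∀ k, IsSRW (Ps k) (Q k) (e k))
    (hU : ∀ k, UniformStart (Ps k) (Q k) (e k))
    (a b t : ℕ → ℝ≥0) (ha : Tendsto a atTop (𝓝 0)) (hN : Tendsto N atTop atTop) (M : ℝ)
    (hM : Tendsto (fun k => (b k : ℝ) * N k) atTop (𝓝 M))
    {Ω : Type} [MeasurableSpace Ω] (P : Measure Ω) [IsProbabilityMeasure P] (Z : Ω → MMC)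
    (hZ : @Measurable Ω MMC _ (borel MMC) Z)
    (hconv : ConvergesInLaw Ps
      (fun k ω => walkSpace (Q k ω) (a k) (b k) (t k) (e k ω) ((hS k).path ω)) P Z) :
    (∀ᵐ ω ∂P, (Z ω).μ Set.univ = ENNReal.ofReal M) ∧
    ∀ F : MMC → ℝ, Continuous F → (∃ C, ∀ z, |F z| ≤ C) →
      (∀ s : ℝ≥0, ∫ ω, F (shift s (Z ω)) ∂P = ∫ ω, F (Z ω) ∂P) ∧
      (∀ T : ℝ≥0, ∫ ω, F (reverse T (Z ω)) ∂P = ∫ ω, F (stop T (Z ω)) ∂P) ∧
      ∀ s : ℝ≥0, M * ∫ ω, F (point (Z ω) ((Z ω).η s)) ∂P = ∫ ω, average F (Z ω) ∂P := by
  have hN' : Tendsto (fun k => (N k : ℝ)) atTop atTop := tendsto_natCast_atTop_atTop.comp hN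
  have hb : Tendsto (fun k => (b k : ℝ)) atTop (𝓝 0) := by
    have h1 := hM.div_atTop hN'
    refine h1.congr' ?_
    filter_upwards [hN'.eventually_gt_atTop 0] with k hk
    field_simp
  have hm : Tendsto (fun k => (b k : ℝ) * (N k + 2)) atTop (𝓝 M) := by
    have h1 := hM.add (hb.mul_const 2)
    rw [zero_mul, add_zero] at h1
    refine h1.congr fun k => ?_
    ring
  have hmass := lim_mass (hS := hS) hZ hm hconv
  have hstop : ∀ T Z, stop T Z = win 0 T Z := by
    intro T Z
    apply mk_congr Z
    funext u
    change Z.η (min u T) = Z.η (0 + min u T)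
    rw [zero_add]
  refine ⟨?_, fun F hF hbd => ⟨fun s => ?_, fun T => ?_, fun s => ?_⟩⟩
  · filter_upwards [hmass] with ω hω
    rw [← hω]
    unfold mass
    rw [measureReal_def, ENNReal.ofReal_toReal (Z ω).fin.ne]
  · -- stationarity
    obtain ⟨C, hC⟩ := hbd
    have k : ∀ s : ℝ≥0, Tendsto (fun n : ℕ => ∫ ω, F (win s n (Z ω)) ∂P) atTop
        (𝓝 (∫ ω, F (shift s (Z ω)) ∂P)) := by
      intro s
      apply tendsto_integral_of_dominated_convergence (fun _ => C)
      · intro n
        exact (meas_comp hZ (hF.comp (cont_rep _ _))).aestronglyMeasurable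
      · exact integrable_const C
      · intro n
        exact ae_of_all _ fun ω => by
          rw [Real.norm_eq_abs]
          exact hC _
      · refine ae_of_all _ fun ω => ?_
        rw [Metric.tendsto_atTop]
        intro r hr
        obtain ⟨ε, hε, h⟩ := (hF.isOpen_preimage _ (Metric.isOpen_ball (x := F (shift s (Z ω)))
          (ε := r))) (shift s (Z ω)) (Metric.mem_ball_self hr)
        obtain ⟨K, hK⟩ := exists_nat_gt ε⁻¹
        refine ⟨K, fun n hn => h _ ?_⟩
        refine ⟨(Z ω).X, (Z ω).met, id, id, isometry_id, isometry_id, fun x => ⟨x, ?_⟩,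
          fun x => ⟨x, ?_⟩, fun A _ => ?_, fun u hu => ?_⟩
        · change dist x x < ε
          rw [dist_self]
          exact hε
        · change dist x x < ε
          rw [dist_self]
          exact hε
        · have h1 : (Z ω).μ A ≤ (Z ω).μ (Metric.thickening ε A) + ENNReal.ofReal ε := by
            refine le_trans ?_ le_self_add
            let _ : MeasurableSpace (Z ω).X := borel (Z ω).X
            exact measure_mono (Metric.self_subset_thickening hε A)
          exact ⟨h1, h1⟩
        · change dist ((Z ω).η (s + u)) ((Z ω).η (s + min u n)) < ε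
          have hun : u ≤ (n : ℝ≥0) := by
            have h1 : (u : ℝ) ≤ K := hu.trans hK.le
            have h2 : (u : ℝ) ≤ n := h1.trans (by exact_mod_cast hn)
            exact_mod_cast h2
          rw [min_eq_left hun, dist_self]
          exact hε
    have k1 := k s
    have k2 := k 0
    have e1 : ∀ n : ℕ, ∫ ω, F (win s n (Z ω)) ∂P = ∫ ω, F (win 0 n (Z ω)) ∂P := fun n =>
      law_eq hZ (cont_rep _ _) (cont_rep _ _)
        (fun G hG => lim_win (hS := hS) hU ha hconv hG s n) hF ⟨C, hC⟩
    simp only [e1] at k1
    have e2 : ∀ Z, shift 0 Z = Z := by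
      intro Z
      apply mk_congr Z
      funext u
      change Z.η (0 + u) = Z.η u
      rw [zero_add]
    simp only [e2] at k2
    exact tendsto_nhds_unique k1 k2
  · -- reversibility
    simp only [hstop]
    exact law_eq hZ (cont_rep _ _) (cont_rep _ _)
      (fun G hG => lim_rev (hS := hS) hU ha hconv hG T) hF hbd
  · -- the law of the position
    obtain ⟨C, hC⟩ := hbd
    have hC0 : 0 ≤ C := by
      obtain ⟨ω⟩ : Nonempty Ω := by
        by_contra h
        rw [not_nonempty_iff] at h
        have h1 : P univ = 0 := by rw [Set.univ_eq_empty_iff.2 h, measure_empty]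
        rw [measure_univ] at h1
        exact one_ne_zero h1
      exact (abs_nonneg _).trans (hC (Z ω))
    obtain ⟨G, g1, g2, g3⟩ := approx hF hC
    have e1 : ∀ G : MMC → ℝ, Nice G →
        M * ∫ ω, G (rep (fun _ => s) continuous_const (Z ω)) ∂P = ∫ ω, avg G (Z ω) ∂P := by
      intro G hG
      have n1 : Nice (fun Z => G (rep (fun _ => 0) continuous_const Z)) := hG.rep _ _
      have h1 := lim_rev (hS := hS) hU ha hconv n1 s
      have h2 := lim_start (hS := hS) hU ha hN hM hZ hconv hG
      have e3 : ∀ Z, rep (fun _ => 0) continuous_const (rev s Z) =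
          rep (fun _ => s) continuous_const Z := by
        intro Z
        apply mk_congr Z
        funext u
        change Z.η (s - 0) = Z.η s
        rw [tsub_zero]
      have e4 : ∀ Z, rep (fun _ => 0) continuous_const (win 0 s Z) =
          rep (fun _ => 0) continuous_const Z := by
        intro Z
        apply mk_congr Z
        funext u
        change Z.η (0 + min 0 s) = Z.η 0
        rw [min_eq_left (show (0 : ℝ≥0) ≤ s from bot_le), add_zero]
      simp only [e3, e4] at h1
      rw [h1, h2]
    have k1 : Tendsto (fun n => ∫ ω, G n (rep (fun _ => s) continuous_const (Z ω)) ∂P) atTop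
        (𝓝 (∫ ω, F (rep (fun _ => s) continuous_const (Z ω)) ∂P)) := by
      apply tendsto_integral_of_dominated_convergence (fun _ => C)
      · intro n
        exact (meas_comp hZ ((g1 n).continuous.comp (cont_rep _ _))).aestronglyMeasurable
      · exact integrable_const C
      · intro n
        exact ae_of_all _ fun ω => by
          rw [Real.norm_eq_abs]
          exact g2 n _
      · exact ae_of_all _ fun ω => g3 _
    have k2 : Tendsto (fun n => ∫ ω, avg (G n) (Z ω) ∂P) atTop
        (𝓝 (∫ ω, average F (Z ω) ∂P)) := by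
      apply tendsto_integral_of_dominated_convergence (fun _ => C * M)
      · intro n
        exact (meas_comp hZ (continuous_avg (g1 n))).aestronglyMeasurable
      · exact integrable_const _
      · intro n
        filter_upwards [hmass] with ω hω
        rw [Real.norm_eq_abs, ← hω]
        exact avg_abs_le (g2 n) _
      · exact ae_of_all _ fun ω => avg_tendsto g1 g2 g3 _
    have k3 := k1.const_mul M
    simp only [e1 _ (g1 _)] at k3
    exact tendsto_nhds_unique k3 k2

end Pool.Agent.Results.MP_7a6434d8_pr.ReversibleLimits
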