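import Pool.Agent.L7h97.TS.BMT

/-!
# The time scaling is unique

Let random walks on random quadrangulations, rescaled in space, be run at two speeds `t k` and
`t' k`. If both sequences converge in law in the Gromov-Hausdorff-Prokhorov-uniform topology to
random spheres with a time-changed Brownian motion (possibly different ones) then the ratio
`t' k / t k` is bounded from above and from below; and if the two limits have the same law (for
example if both are Liouville Brownian motion) then `t' k / t k → 1`.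

Proof. The expectation `φ s` of the displacement (truncated at `1`) of the limit curve up to time
`s` is a continuous functional of the law, and it is not zero. If `t' k ≤ r t k` for infinitely
many `k` then `φ' s ≤ φ (r s)`. For two limits with the same law and `r < 1` this gives
`φ s ≤ φ (r ^ n s) → 0`.
-/

set_option autoImplicit false

open scoped NNReal ENNReal Topology
open MeasureTheory ProbabilityTheory Filter Set

open Pool.Agent.Helper363_LBM Pool.Agent.L7h97.TS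

namespace Pool.Agent.Results.MP_7a6434d8_pr.TimeScaleUnique

/-- The displacement of the curve up to time `s`, truncated at `1`. -/
noncomputable def disp (s : ℝ≥0) (Z : MMC) : ℝ :=
  sSup ((fun u : ℝ≥0 => min 1 (dist (Z.η 0) (Z.η u))) '' Iic s)

theorem disp_bdd (s : ℝ≥0) (Z : MMC) :
    BddAbove ((fun u : ℝ≥0 => min 1 (dist (Z.η 0) (Z.η u))) '' Iic s) := by
  refine ⟨1, ?_⟩
  rintro _ ⟨u, -, rfl⟩
  exact min_le_left _ _

theorem le_disp {s u : ℝ≥0} (h : u ≤ s) (Z : MMC) : min 1 (dist (Z.η 0) (Z.η u)) ≤ disp s Z :=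
  le_csSup (disp_bdd s Z) ⟨u, h, rfl⟩

theorem disp_le {s : ℝ≥0} {Z : MMC} {r : ℝ}
    (h : ∀ u : ℝ≥0, u ≤ s → min 1 (dist (Z.η 0) (Z.η u)) ≤ r) : disp s Z ≤ r := by
  apply csSup_le
  · exact ⟨_, ⟨0, mem_Iic.2 bot_le, rfl⟩⟩
  · rintro _ ⟨u, hu, rfl⟩
    exact h u hu

theorem disp_nonneg (s : ℝ≥0) (Z : MMC) : 0 ≤ disp s Z :=
  (le_min zero_le_one dist_nonneg).trans (le_disp (le_refl s) Z)

theorem disp_le_one (s : ℝ≥0) (Z : MMC) : disp s Z ≤ 1 := disp_le fun _ _ => min_le_left _ _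

theorem disp_mono {s s' : ℝ≥0} (h : s ≤ s') (Z : MMC) : disp s Z ≤ disp s' Z :=
  disp_le fun _ hu => le_disp (hu.trans h) Z

theorem disp_close {s : ℝ≥0} {ε : ℝ} (hs : (s : ℝ) ≤ ε⁻¹) {Z Z' : MMC} (h : MMC.Close ε Z Z') :
    disp s Z' ≤ disp s Z + 2 * ε := by
  obtain ⟨W, m, i, j, hi, hj, -, -, -, h4⟩ := h
  apply disp_le
  intro u hu
  have h0 := h4 0 (by
    have : (0 : ℝ) ≤ s := s.2
    exact (by simpa using this.trans hs))
  have h1 := h4 u (le_trans (by exact_mod_cast hu) hs)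
  have h2 := le_disp hu Z
  have h3 : dist (Z'.η 0) (Z'.η u) ≤ dist (Z.η 0) (Z.η u) + 2 * ε := by
    rw [← hi.dist_eq, ← hj.dist_eq]
    have := dist_triangle4 (j (Z'.η 0)) (i (Z.η 0)) (i (Z.η u)) (j (Z'.η u))
    have h5 := dist_comm (j (Z'.η 0)) (i (Z.η 0))
    linarith
  have hε : 0 ≤ ε := le_trans dist_nonneg h0.le
  rcases min_choice 1 (dist (Z.η 0) (Z.η u)) with h5 | h5
  · rw [h5] at h2
    exact (min_le_left _ _).trans (by linarith)
  · rw [h5] at h2
    exact (min_le_right _ _).trans (by linarith)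

theorem close_symm {ε : ℝ} {Z Z' : MMC} (h : MMC.Close ε Z Z') : MMC.Close ε Z' Z := by
  obtain ⟨W, m, i, j, hi, hj, h1, h2, h3, h4⟩ := h
  refine ⟨W, m, j, i, hj, hi, fun y => ?_, fun x => ?_, fun F hF => ⟨(h3 F hF).2, (h3 F hF).1⟩,
    fun t ht => ?_⟩
  · obtain ⟨x, hx⟩ := h2 y
    exact ⟨x, by rwa [dist_comm]⟩
  · obtain ⟨y, hy⟩ := h1 x
    exact ⟨y, by rwa [dist_comm]⟩
  · rw [dist_comm]
    exact h4 t ht

theorem disp_continuous (s : ℝ≥0) : Continuous (disp s) := by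
  rw [continuous_def]
  intro U hU Z hZ
  obtain ⟨δ, hδ, hball⟩ := Metric.isOpen_iff.1 hU (disp s Z) hZ
  have hs : (0 : ℝ) < s + 1 := by
    have : (0 : ℝ) ≤ s := s.2
    linarith
  refine ⟨min (δ / 3) (s + 1 : ℝ)⁻¹, lt_min (by positivity) (by positivity), fun Z' hZ' =>
    hball ?_⟩
  set ε := min (δ / 3) ((s : ℝ) + 1)⁻¹ with hε
  have hε0 : 0 < ε := lt_min (by positivity) (by positivity)
  have h1 : ε ≤ δ / 3 := min_le_left _ _
  have h2 : (s : ℝ) ≤ ε⁻¹ := by
    have : (s : ℝ) + 1 ≤ ε⁻¹ := (le_inv_comm₀ hs hε0).2 (min_le_right _ _)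
    linarith
  have h3 := disp_close h2 hZ'
  have h4 := disp_close h2 (close_symm hZ')
  rw [Metric.mem_ball, Real.dist_eq, abs_lt]
  constructor <;> linarith

theorem disp_tendsto (Z : MMC) {x : ℕ → ℝ≥0} (hx : Tendsto x atTop (𝓝 0)) :
    Tendsto (fun n => disp (x n) Z) atTop (𝓝 0) := by
  rw [Metric.tendsto_atTop]
  intro ε hε
  have hc : Tendsto (fun u => dist (Z.η 0) (Z.η u)) (𝓝 0) (𝓝 0) := by
    have := (continuous_const.dist Z.cont).tendsto (x := (0 : ℝ≥0)) (f := fun u =>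
      dist (Z.η 0) (Z.η u))
    rwa [dist_self] at this
  obtain ⟨δ, hδ, hball⟩ := Metric.eventually_nhds_iff.1
    (hc.eventually (gt_mem_nhds (half_pos hε)))
  obtain ⟨n, hn⟩ := (Metric.tendsto_atTop.1 hx) δ hδ
  refine ⟨n, fun m hm => ?_⟩
  have h1 := hn m hm
  rw [Real.dist_eq, sub_zero, abs_of_nonneg (disp_nonneg _ _)]
  refine lt_of_le_of_lt (disp_le (r := ε / 2) fun u hu => ?_) (half_lt_self hε)
  refine (min_le_right _ _).trans (hball ?_).le
  rw [NNReal.dist_eq] at h1 ⊢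
  have hu' : (u : ℝ) ≤ x m := by exact_mod_cast hu
  have h0 : (0 : ℝ) ≤ u := u.2
  simp only [NNReal.coe_zero, sub_zero] at h1 ⊢
  rw [NNReal.abs_eq] at h1 ⊢
  linarith

/-! ### The limit -/

section Limit

variable {Ω : Type} [MeasurableSpace Ω] {P : Measure Ω} [IsProbabilityMeasure P] {Z : Ω → MMC}

/-- The expected displacement. -/
noncomputable def phi (P : Measure Ω) (Z : Ω → MMC) (s : ℝ≥0) : ℝ := ∫ ω, disp s (Z ω) ∂P

omit [IsProbabilityMeasure P] in
theorem meas_disp (hZ : @Measurable Ω MMC _ (borel MMC) Z) (s : ℝ≥0) :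
    Measurable (fun ω => disp s (Z ω)) := by
  have h1 : @Measurable MMC ℝ (borel MMC) _ (disp s) := by
    let _ : MeasurableSpace MMC := borel MMC
    have : BorelSpace MMC := ⟨rfl⟩
    exact (disp_continuous s).measurable
  exact h1.comp hZ

theorem integrable_of {f : Ω → ℝ} (hf : Measurable f) (h0 : ∀ ω, 0 ≤ f ω) (h1 : ∀ ω, f ω ≤ 1) :
    Integrable f P := by
  refine Integrable.of_bound hf.aestronglyMeasurable 1 (ae_of_all _ fun ω => ?_)
  rw [Real.norm_eq_abs, abs_of_nonneg (h0 _)]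
  exact h1 _

theorem phi_tendsto (hZ : @Measurable Ω MMC _ (borel MMC) Z) {x : ℕ → ℝ≥0}
    (hx : Tendsto x atTop (𝓝 0)) : Tendsto (fun n => phi P Z (x n)) atTop (𝓝 0) := by
  have h := tendsto_integral_of_dominated_convergence (μ := P) (F := fun n ω => disp (x n) (Z ω))
    (f := fun _ => (0 : ℝ)) (fun _ => 1) (fun n => (meas_disp hZ (x n)).aestronglyMeasurable)
    (integrable_const 1) (fun n => ae_of_all _ fun ω => by
      rw [Real.norm_eq_abs, abs_of_nonneg (disp_nonneg _ _)]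
      exact disp_le_one _ _) (ae_of_all _ fun ω => disp_tendsto (Z ω) hx)
  rwa [integral_zero] at h

theorem phi_pos (hZ : @Measurable Ω MMC _ (borel MMC) Z) (hlim : IsBrownianSphere P Z) :
    ∃ s, 0 < phi P Z s := by
  obtain ⟨n, M, hpos⟩ := goodT_pos hlim
  refine ⟨n + 1, ?_⟩
  set r : ℝ := min 1 (20 / (n + 1)) with hr
  have hr0 : 0 < r := lt_min one_pos (by positivity)
  have hm := meas_disp hZ (n + 1 : ℝ≥0)
  set E := {ω | r ≤ disp (n + 1) (Z ω)} with hE
  have hEm : MeasurableSet E := measurableSet_le measurable_const hm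
  have hsub : Z ⁻¹' {Z | GoodT n M Z} ⊆ E := by
    rintro ω ⟨-, K, L, -, -, -, -, hKL, htr⟩
    obtain ⟨l, l', hll, hl, hl', -⟩ := htr 0 0
    have h1 := hKL 0 0 _ hl _ hl'
    have ht : ∀ m : Fin ((n + 1) ^ 2 + 1), tm n m ≤ (n + 1 : ℝ≥0) := by
      intro m
      have h2 := tm_le (n := n) (l := m) (by omega)
      have h3 : ((tm n m : ℝ≥0) : ℝ) ≤ ((n + 1 : ℝ≥0) : ℝ) := by
        push_cast
        exact h2
      exact_mod_cast h3
    have h2 := le_disp (ht l) (Z ω)
    have h3 := le_disp (ht l') (Z ω)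
    have h4 := dist_triangle_left ((Z ω).η (tm n l)) ((Z ω).η (tm n l')) ((Z ω).η 0)
    have e : (40 : ℝ) / (n + 1) = 20 / (n + 1) + 20 / (n + 1) := by ring
    rw [e] at h1
    rcases le_total (20 / ((n : ℝ) + 1)) (dist ((Z ω).η 0) ((Z ω).η (tm n l))) with h5 | h5
    · exact (min_le_min_left 1 h5).trans h2
    · have h6 : 20 / ((n : ℝ) + 1) ≤ dist ((Z ω).η 0) ((Z ω).η (tm n l')) := by linarith
      exact (min_le_min_left 1 h6).trans h3
  have h1 : 0 < P.real E := hpos.trans_le (measureReal_mono hsub (measure_ne_top _ _))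
  have h2 : ∫ ω, E.indicator (fun _ => r) ω ∂P = P.real E * r := by
    rw [integral_indicator_const _ hEm, smul_eq_mul]
  have h3 : ∫ ω, E.indicator (fun _ => r) ω ∂P ≤ phi P Z (n + 1) := by
    apply integral_mono ((integrable_const r).indicator hEm)
      (integrable_of hm (fun ω => disp_nonneg _ _) (fun ω => disp_le_one _ _))
    intro ω
    by_cases h : ω ∈ E
    · simp only [Set.indicator_of_mem h]
      exact h
    · simp only [Set.indicator_of_notMem h]
      exact disp_nonneg _ _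
  rw [h2] at h3
  exact (mul_pos h1 hr0).trans_le h3

end Limit

/-! ### The walks -/

section Walks

variable {N : ℕ} {Ω : Type} [MeasurableSpace Ω] {P : Measure Ω} [IsProbabilityMeasure P]
  {Q : Ω → Quad N} {e : Ω → ℕ → Fin (4 * N)}

/-- The displacement of a path. -/
noncomputable def pdisp (q : Quad N) (a t s : ℝ≥0) (e : ℕ → Fin (4 * N)) : ℝ :=
  sSup ((fun u : ℝ≥0 => min 1 (dist (curve q a t e 0) (curve q a t e u))) '' Iic s)

theorem pdisp_congr (q : Quad N) (a t s : ℝ≥0) {e e' : ℕ → Fin (4 * N)}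
    (h : ∀ i ≤ ⌊t * s⌋₊, e i = e' i) : pdisp q a t s e = pdisp q a t s e' := by
  unfold pdisp
  congr 1
  apply Set.image_congr
  intro u hu
  have h1 : ∀ v : ℝ≥0, v ≤ s → curve q a t e v = curve q a t e' v := by
    intro v hv
    unfold curve curvePt
    rw [h ⌊t * v⌋₊ (Nat.floor_mono (mul_le_mul_of_nonneg_left hv bot_le))]
  rw [h1 0 bot_le, h1 u hu]

omit [IsProbabilityMeasure P] in
theorem meas_pdisp (hS : IsSRW P Q e) (a t s : ℝ≥0) :
    Measurable (fun ω => pdisp (Q ω) a t s (e ω)) := by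
  intro S _
  have h : (fun ω => pdisp (Q ω) a t s (e ω)) ⁻¹' S =
      past Q e ⌊t * s⌋₊ ⁻¹' {b | pdisp b.1 a t s (Helper363_LBM.ext b.2) ∈ S} := by
    ext ω
    simp only [mem_preimage, mem_ofPred_eq]
    rw [pdisp_congr (Q ω) a t s (e := e ω) (e' := Helper363_LBM.ext (past Q e ⌊t * s⌋₊ ω).2)]
    · rfl
    · intro i hi
      change e ω i = e ω (min i ⌊t * s⌋₊)
      rw [Nat.min_eq_left hi]
  rw [h]
  exact meas_past_pre hS _ _

theorem pdisp_scale (q : Quad N) (a : ℝ≥0) {t t' s s' : ℝ≥0} (h : t' * s ≤ t * s')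
    (e : ℕ → Fin (4 * N)) : pdisp q a t' s e ≤ pdisp q a t s' e := by
  apply csSup_le
  · exact ⟨_, ⟨0, mem_Iic.2 bot_le, rfl⟩⟩
  · rintro _ ⟨u, hu, rfl⟩
    have hu' : u ≤ s := hu
    obtain ⟨v, hv, hvu⟩ : ∃ v ≤ s', t * v = t' * u := by
      have h1 : t' * u ≤ t * s' := (mul_le_mul_of_nonneg_left hu' bot_le).trans h
      rcases eq_or_ne t 0 with ht | ht
      · refine ⟨0, bot_le, ?_⟩
        rw [ht, zero_mul] at h1
        rw [mul_zero]
        exact (le_antisymm h1 bot_le).symm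
      · refine ⟨t' * u / t, ?_, mul_div_cancel₀ _ ht⟩
        rw [div_le_iff₀ (pos_iff_ne_zero.2 ht), mul_comm]
        rw [mul_comm s' t]
        rw [mul_comm] at h1
        exact h1
    have e1 : curve q a t' e u = curve q a t e v := by
      unfold curve
      rw [hvu]
    have e0 : curve q a t' e 0 = curve q a t e 0 := by
      unfold curve
      rw [mul_zero, mul_zero]
    simp only [e1, e0]
    refine le_csSup ⟨1, ?_⟩ ⟨v, hv, rfl⟩
    rintro _ ⟨w, -, rfl⟩
    exact min_le_left _ _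

end Walks

/-! ### The main argument -/

section Main

variable {Ωs : ℕ → Type} [∀ k, MeasurableSpace (Ωs k)] {Ps : ∀ k, Measure (Ωs k)}
  [∀ k, IsProbabilityMeasure (Ps k)] {N : ℕ → ℕ} {Q : ∀ k, Ωs k → Quad (N k)}
  {e : ∀ k, Ωs k → ℕ → Fin (4 * N k)} {hS : ∀ k, IsSRW (Ps k) (Q k) (e k)} {a b t t' : ℕ → ℝ≥0}
  {Ω Ω' : Type} [MeasurableSpace Ω] [MeasurableSpace Ω'] {P : Measure Ω} {P' : Measure Ω'}
  [IsProbabilityMeasure P] [IsProbabilityMeasure P'] {Z : Ω → MMC} {Z' : Ω' → MMC}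

omit [∀ k, IsProbabilityMeasure (Ps k)] [IsProbabilityMeasure P] in
theorem lim_phi (hconv : ConvergesInLaw Ps
      (fun k ω => walkSpace (Q k ω) (a k) (b k) (t k) (e k ω) ((hS k).path ω)) P Z) (s : ℝ≥0) :
    Tendsto (fun k => ∫ ω, pdisp (Q k ω) (a k) (t k) s (e k ω) ∂(Ps k)) atTop (𝓝 (phi P Z s)) :=
  hconv (disp s) (disp_continuous s) ⟨1, fun z => by
    rw [abs_of_nonneg (disp_nonneg _ _)]
    exact disp_le_one _ _⟩

omit [IsProbabilityMeasure P] [IsProbabilityMeasure P'] in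
/-- If the second speed is often much smaller then the second limit is slower. -/
theorem phi_le (hconv : ConvergesInLaw Ps
      (fun k ω => walkSpace (Q k ω) (a k) (b k) (t k) (e k ω) ((hS k).path ω)) P Z)
    (hconv' : ConvergesInLaw Ps
      (fun k ω => walkSpace (Q k ω) (a k) (b k) (t' k) (e k ω) ((hS k).path ω)) P' Z')
    {r : ℝ≥0} (h : ∃ᶠ k in atTop, t' k ≤ r * t k) (s : ℝ≥0) : phi P' Z' s ≤ phi P Z (r * s) := by
  have h1 := lim_phi (hS := hS) hconv (r * s)
  have h2 := lim_phi (hS := hS) hconv' s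
  by_contra hne
  push Not at hne
  obtain ⟨m, hm1, hm2⟩ := exists_between hne
  have h3 := (h.and_eventually ((h1.eventually (gt_mem_nhds hm1)).and
    (h2.eventually (lt_mem_nhds hm2)))).exists
  obtain ⟨k, hk, hk1, hk2⟩ := h3
  have h4 : ∫ ω, pdisp (Q k ω) (a k) (t' k) s (e k ω) ∂(Ps k) ≤
      ∫ ω, pdisp (Q k ω) (a k) (t k) (r * s) (e k ω) ∂(Ps k) := by
    have b0 : ∀ (t s : ℝ≥0) (ω : Ωs k), 0 ≤ pdisp (Q k ω) (a k) t s (e k ω) := fun t s ω =>
      disp_nonneg s (walkSpace (Q k ω) (a k) (b k) t (e k ω) ((hS k).path ω))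
    have b1 : ∀ (t s : ℝ≥0) (ω : Ωs k), pdisp (Q k ω) (a k) t s (e k ω) ≤ 1 := fun t s ω =>
      disp_le_one s (walkSpace (Q k ω) (a k) (b k) t (e k ω) ((hS k).path ω))
    apply integral_mono (integrable_of (meas_pdisp (hS k) _ _ _) (b0 _ _) (b1 _ _))
      (integrable_of (meas_pdisp (hS k) _ _ _) (b0 _ _) (b1 _ _))
    intro ω
    apply pdisp_scale
    calc t' k * s ≤ r * t k * s := mul_le_mul_of_nonneg_right hk bot_le
      _ = t k * (r * s) := by ring
  linarith

/-- The ratio is bounded from below. -/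
theorem ratio_lower (hZ : @Measurable Ω MMC _ (borel MMC) Z)
    (hZ' : @Measurable Ω' MMC _ (borel MMC) Z') (hlim' : IsBrownianSphere P' Z')
    (hconv : ConvergesInLaw Ps
      (fun k ω => walkSpace (Q k ω) (a k) (b k) (t k) (e k ω) ((hS k).path ω)) P Z)
    (hconv' : ConvergesInLaw Ps
      (fun k ω => walkSpace (Q k ω) (a k) (b k) (t' k) (e k ω) ((hS k).path ω)) P' Z') :
    ∃ r : ℝ≥0, 0 < r ∧ ∀ᶠ k in atTop, r * t k < t' k := by
  by_contra hne
  push Not at hne
  obtain ⟨s, hs⟩ := phi_pos hZ' hlim'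
  have h1 : ∀ r : ℝ≥0, 0 < r → phi P' Z' s ≤ phi P Z (r * s) := fun r hr =>
    phi_le (hS := hS) hconv hconv' (hne r hr) s
  have hx : Tendsto (fun n : ℕ => (1 / ((n : ℝ≥0) + 1)) * s) atTop (𝓝 0) := by
    have := (tendsto_one_div_add_atTop_nhds_zero_nat (𝕜 := ℝ≥0)).mul_const s
    rwa [zero_mul] at this
  have h2 := phi_tendsto (P := P) hZ hx
  have h3 : phi P' Z' s ≤ 0 := ge_of_tendsto' h2 fun n => h1 _ (by positivity)
  linarith

omit [IsProbabilityMeasure P'] in
/-- For limits with the same law the ratio is not less than `1` in the limit. -/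
theorem ratio_one (hZ : @Measurable Ω MMC _ (borel MMC) Z) (hlim : IsBrownianSphere P Z)
    (hconv : ConvergesInLaw Ps
      (fun k ω => walkSpace (Q k ω) (a k) (b k) (t k) (e k ω) ((hS k).path ω)) P Z)
    (hconv' : ConvergesInLaw Ps
      (fun k ω => walkSpace (Q k ω) (a k) (b k) (t' k) (e k ω) ((hS k).path ω)) P' Z')
    (hlaw : ∀ s, phi P' Z' s = phi P Z s) {r : ℝ≥0} (hr : r < 1) :
    ∀ᶠ k in atTop, r * t k < t' k := by
  by_contra hne
  rw [not_eventually] at hne
  simp only [not_lt] at hne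
  obtain ⟨s, hs⟩ := phi_pos hZ hlim
  have h1 : ∀ s, phi P Z s ≤ phi P Z (r * s) := fun s => by
    rw [← hlaw s]
    exact phi_le (hS := hS) hconv hconv' hne s
  have h2 : ∀ n : ℕ, phi P Z s ≤ phi P Z (r ^ n * s) := by
    intro n
    induction n with
    | zero => rw [pow_zero, one_mul]
    | succ n ih =>
      refine ih.trans ((h1 _).trans (le_of_eq ?_))
      congr 1
      ring
  have hx : Tendsto (fun n : ℕ => r ^ n * s) atTop (𝓝 0) := by
    have := (tendsto_pow_atTop_nhds_zero_of_lt_one (bot_le : (0 : ℝ≥0) ≤ r) hr).mul_const s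
    rwa [zero_mul] at this
  have h3 : phi P Z s ≤ 0 := ge_of_tendsto' (phi_tendsto (P := P) hZ hx) h2
  linarith

end Main

/-- Let `Q k` be random quadrangulations of the sphere with `N k` faces and `e k` simple random
walks on them. Suppose that, with edges of length `a k`, mass `b k` at every vertex, the walks run
at speed `t k` converge in law in the GHPU topology to a random sphere with a time-changed
Brownian motion, and that the walks run at speed `t' k` also converge to such an object. Then the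
ratio `t' k / t k` is bounded away from `0` and `∞` for large `k`; and if the laws of the two
limits agree then the ratio tends to `1`. -/
theorem result {Ωs : ℕ → Type} [∀ k, MeasurableSpace (Ωs k)] (Ps : ∀ k, Measure (Ωs k))
    [∀ k, IsProbabilityMeasure (Ps k)] (N : ℕ → ℕ) (Q : ∀ k, Ωs k → Quad (N k))
    (e : ∀ k, Ωs k → ℕ → Fin (4 * N k)) (hS : ∀ k, IsSRW (Ps k) (Q k) (e k))
    (a b t t' : ℕ → ℝ≥0)
    {Ω Ω' : Type} [MeasurableSpace Ω] [MeasurableSpace Ω'] (P : Measure Ω) (P' : Measure Ω')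
    [IsProbabilityMeasure P] [IsProbabilityMeasure P'] (Z : Ω → MMC) (Z' : Ω' → MMC)
    (hZ : @Measurable Ω MMC _ (borel MMC) Z) (hZ' : @Measurable Ω' MMC _ (borel MMC) Z')
    (hlim : IsBrownianSphere P Z) (hlim' : IsBrownianSphere P' Z')
    (hconv : ConvergesInLaw Ps
      (fun k ω => walkSpace (Q k ω) (a k) (b k) (t k) (e k ω) ((hS k).path ω)) P Z)
    (hconv' : ConvergesInLaw Ps
      (fun k ω => walkSpace (Q k ω) (a k) (b k) (t' k) (e k ω) ((hS k).path ω)) P' Z') :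
    (∃ c C : ℝ, 0 < c ∧ ∀ᶠ k in atTop, 0 < t k ∧ c * t k ≤ t' k ∧ (t' k : ℝ) ≤ C * t k) ∧
    ((∀ F : MMC → ℝ, Continuous F → (∃ C, ∀ z, |F z| ≤ C) →
        ∫ ω, F (Z ω) ∂P = ∫ ω, F (Z' ω) ∂P') →
      Tendsto (fun k => (t' k : ℝ) / t k) atTop (𝓝 1)) := by
  obtain ⟨r, hr, h1⟩ := ratio_lower (hS := hS) hZ hZ' hlim' hconv hconv'
  obtain ⟨r', hr', h2⟩ := ratio_lower (hS := hS) hZ' hZ hlim hconv' hconv
  have hpos : ∀ᶠ k in atTop, 0 < t k := by
    filter_upwards [h2] with k hk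
    exact lt_of_le_of_lt bot_le hk
  refine ⟨⟨r, 1 / r', by exact_mod_cast hr, ?_⟩, fun hlaw => ?_⟩
  · filter_upwards [h1, h2, hpos] with k k1 k2 k3
    have hr'' : (0 : ℝ) < r' := by exact_mod_cast hr'
    have k1' : (r : ℝ) * t k < t' k := by exact_mod_cast k1
    have k2' : (r' : ℝ) * t' k < t k := by exact_mod_cast k2
    refine ⟨k3, k1'.le, ?_⟩
    rw [div_mul_eq_mul_div, one_mul, le_div_iff₀ hr'']
    linarith
  · have hl : ∀ s, phi P' Z' s = phi P Z s := fun s => (hlaw (disp s) (disp_continuous s)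
      ⟨1, fun z => by
        rw [abs_of_nonneg (disp_nonneg _ _)]
        exact disp_le_one _ _⟩).symm
    have g1 : ∀ {ρ : ℝ≥0}, ρ < 1 → ∀ᶠ k in atTop, ρ * t k < t' k := fun hρ =>
      ratio_one (hS := hS) hZ hlim hconv hconv' hl hρ
    have g2 : ∀ {ρ : ℝ≥0}, ρ < 1 → ∀ᶠ k in atTop, ρ * t' k < t k := fun hρ =>
      ratio_one (hS := hS) hZ' hlim' hconv' hconv (fun s => (hl s).symm) hρ
    rw [Metric.tendsto_atTop]
    intro ε hε
    -- a factor close to one
    obtain ⟨ρ, hρ0, hρ1, hρ2, hρ3⟩ : ∃ ρ : ℝ≥0, 0 < ρ ∧ ρ < 1 ∧ 1 - ε < ρ ∧ 1 / (ρ : ℝ) < 1 + ε := by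
      obtain ⟨x, hx1, hx2⟩ := exists_between (show max (max 0 (1 - ε)) (1 / (1 + ε)) < 1 by
        refine max_lt (max_lt (by norm_num) (by linarith)) ?_
        rw [div_lt_one (by linarith)]
        linarith)
      rw [max_lt_iff, max_lt_iff] at hx1
      obtain ⟨⟨x1, x2⟩, x3⟩ := hx1
      refine ⟨⟨x, x1.le⟩, x1, hx2, x2, ?_⟩
      change 1 / x < 1 + ε
      rw [div_lt_iff₀ x1]
      rw [div_lt_iff₀ (by linarith)] at x3
      linarith
    obtain ⟨K, hK⟩ := eventually_atTop.1 ((g1 hρ1).and ((g2 hρ1).and hpos))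
    refine ⟨K, fun k hk => ?_⟩
    obtain ⟨k1, k2, k3⟩ := hK k hk
    have k1' : (ρ : ℝ) * t k < t' k := by exact_mod_cast k1
    have k2' : (ρ : ℝ) * t' k < t k := by exact_mod_cast k2
    have k3' : (0 : ℝ) < t k := by exact_mod_cast k3
    have hρ0' : (0 : ℝ) < ρ := by exact_mod_cast hρ0
    rw [Real.dist_eq, abs_lt]
    have u1 : (ρ : ℝ) < t' k / t k := by
      rw [lt_div_iff₀ k3']
      exact k1'
    have u2 : (t' k : ℝ) / t k < 1 / ρ := by
      rw [div_lt_div_iff₀ k3' hρ0']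
      linarith
    constructor <;> linarith

end Pool.Agent.Results.MP_7a6434d8_pr.TimeScaleUnique
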