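import Pool.Agent.L7h97.UD.Main
import Pool.Agent.L7h97.UD.Col
import Pool.Agent.L7h27.UD.Ana
import Pool.Agent.L7h27.UD.Cnt2
import Pool.Agent.L7h27.UD.Low
import Pool.Agent.L7h53.UD.Cyc
import Pool.Agent.L7h53.UD.Eval
import Pool.Agent.L7h56.UD.Nl
import Pool.Agent.L7h89.UD.Deg
import Pool.Agent.L7h89.UD.Opn

/-!
# The time scale of random walk on uniform quadrangulations

If the random walks on uniform quadrangulations with `n` faces, run at speed `t n`, converge to
Liouville Brownian motion on the Brownian map, or to any time-changed Brownian motion on any random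
sphere, then `c * n / log n ≤ t n ≤ C * n`.

The lower bound `N ≤ C * D * t` for quadrangulations of arbitrary laws with degrees at most `D`
(`L7h97/TS`) uses nine flows of small energy between six sets and the nonplanarity of `K_{3,3}`.
The maximal degree of a uniform quadrangulation is at most `450 * log n` with high probability.
The proof uses no enumeration. Opening a vertex of degree `j` at the root, which yields a
quadrangulation with one more face and a root vertex of degree exactly `k ≤ j + 1`, is injective;
collapsing a face is injective up to a bounded factor. With `A n` the sum of `u ^ deg` over the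
quadrangulations with `n` faces, rooted at a dart, and `Z n` their number, the first injection
gives `A n ≤ Z n + (u - 1) * A (n + 1) / F n` and the second one `Z (n + 1) ≤ 112 * F n * Z n`,
where `F n` is the number of labellings of four new darts; iterating, `A n ≤ 2 * Z n` for
`u = 225 / 224`.
-/

set_option autoImplicit false

open scoped NNReal ENNReal Topology
open MeasureTheory ProbabilityTheory Filter Set

open Pool.Agent.Helper363_LBM Pool.Agent.L7h97.TS

namespace Pool.Agent.Results.MP_7a6434d8_pr.UniformTimeScale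

open Pool.Agent.L7h97.UD in
theorem ana : S_ANA :=
  have hNL := Pool.Agent.L7h56.UD.s_NL
  have hEV := Pool.Agent.L7h53.UD.s_EVAL
  have hCY := Pool.Agent.L7h53.UD.s_CYC
  have hDG := Pool.Agent.L7h89.UD.s_DEG hNL hEV
  Pool.Agent.L7h27.UD.s_ANA
    (s_CNT1 hNL hEV (Pool.Agent.L7h89.UD.s_OPN hNL hEV hCY) hDG)
    (Pool.Agent.L7h27.UD.s_CNT2 hNL hEV (s_COL hNL hEV hCY) hDG)
    Pool.Agent.L7h27.UD.s_LOW

/-- Let `Q k` be random quadrangulations of the sphere with `N k` faces, with simple random walks
`e k` whose first dart is uniform given `Q k`. Suppose that, with edges of length `a k → 0`, mass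
`b k` at every vertex and the walk run at speed `t k`, they converge in law in the GHPU topology to
a random sphere with a time-changed Brownian motion.
(1) There are constants `C` and `δ > 0` such that for all large `k`: if all degrees of `Q k` are at
most `D` with probability at least `1 - δ` then `N k ≤ C * D * t k`.
(2) Let `N k → ∞` and suppose that no quadrangulation has a probability larger than `ρ k ≥ 1` times
its probability under the uniform law (so `ρ k = 1` for uniform quadrangulations). Then there are
`c > 0` and `C` such that `c * N k / (log (N k) + log (ρ k)) ≤ t k ≤ C * N k` for all large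
`k`. -/
theorem result {Ωs : ℕ → Type} [∀ k, MeasurableSpace (Ωs k)] (Ps : ∀ k, Measure (Ωs k))
    [∀ k, IsProbabilityMeasure (Ps k)] (N : ℕ → ℕ) (Q : ∀ k, Ωs k → Quad (N k))
    (e : ∀ k, Ωs k → ℕ → Fin (4 * N k)) (hS : ∀ k, IsSRW (Ps k) (Q k) (e k))
    (hU : ∀ k, UniformStart (Ps k) (Q k) (e k))
    (a b t : ℕ → ℝ≥0) (ha : Tendsto a atTop (𝓝 0))
    {Ω : Type} [MeasurableSpace Ω] (P : Measure Ω) [IsProbabilityMeasure P] (Z : Ω → MMC)
    (hZ : @Measurable Ω MMC _ (borel MMC) Z) (hlim : IsBrownianSphere P Z)
    (hconv : ConvergesInLaw Ps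
      (fun k ω => walkSpace (Q k ω) (a k) (b k) (t k) (e k ω) ((hS k).path ω)) P Z) :
    (∃ C δ : ℝ, 0 < C ∧ 0 < δ ∧ ∀ᶠ k in atTop, ∀ D : ℕ,
      (Ps k).real {ω | ∃ v, D < (Q k ω).deg v} ≤ δ → (N k : ℝ) ≤ C * D * t k) ∧
    (Tendsto N atTop atTop → ∀ ρ : ℕ → ℝ, (∀ k, 1 ≤ ρ k) →
      (∀ k q, (Ps k).real {ω | Q k ω = q} ≤ ρ k / Nat.card (Quad (N k))) →
      ∃ c C : ℝ, 0 < c ∧ ∀ᶠ k in atTop,
        c * N k / (Real.log (N k) + Real.log (ρ k)) ≤ t k ∧ (t k : ℝ) ≤ C * N k) :=
  Pool.Agent.L7h97.UD.main ana Ps N Q e hS hU a b t ha P Z hZ hlim hconv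

end Pool.Agent.Results.MP_7a6434d8_pr.UniformTimeScale
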